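import Pool.Agent.H64.EV.Defs

/-!
# Targets: complete intersections of even dimension
-/

set_option autoImplicit false

open Matrix Pool.Agent.H64.CC Pool.Agent.H2.NL

namespace Pool.Agent.H64.EV

/-! ### Tensors with a supersymmetric form -/

/-- OPS: exchanges and the pairing in parallel form. -/
def T_OPS : Prop := ∀ (K : Type) [Field K] (I : Type) [Fintype I] [DecidableEq I] (F : OForm K I)
  (n j : ℕ) (f g : List I → K), j + 2 ≤ n →
  F.Pr n (sw F.o j f) (sw F.o j g) = F.Pr n f g ∧ F.Pr n (sw F.o j f) g = F.Pr n f (sw F.o j g)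

/-- ORE: reversed words. -/
def T_ORE : Prop := ∀ (K : Type) [Field K] (I : Type) [Fintype I] [DecidableEq I] (F : OForm K I)
  (n : ℕ) (t : List I → K),
  (∀ j, j + 2 ≤ n → ∀ w : List I, w.length = n → sw F.o j (rv t) w = rv (sw F.o (n - 2 - j) t) w) ∧
  (∀ w : List I, w.length = n → F.con' (rv t) w = rv (con F.η n t) w)

/-- ODE: the derivation and the pairing. -/
def T_ODE : Prop := ∀ (K : Type) [Field K] (I : Type) [Fintype I] [DecidableEq I] (F : OForm K I)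
  (T : Matrix I I K), (∀ a b, T a b ≠ 0 → F.o a = F.o b) → ∀ (n : ℕ) (f g : List I → K),
  F.Pr n (der T f) g = ∑ i ∈ Finset.range n, ∑ e, ∑ b, F.c e * T e b *
    F.Pr (n - 1) (fun l => sws F.o (List.range i) f (b :: l))
      (fun l => sws F.o (List.range i) g (F.st e :: l))

/-- ODI: the invariance under the orthogonal Lie algebra, contracted with `y`. -/
def T_ODI : Prop := ∀ (K : Type) [Field K] [CharZero K] (V P : Type) [Fintype V] [DecidableEq V]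
  [Fintype P] [DecidableEq P] (F : OForm K (V ⊕ P)) (A : ℕ → Submodule ℚ (List (V ⊕ P) → K)),
  OSys F A → ∀ (k : ℕ) (x y : List (V ⊕ P) → K), 1 ≤ k → x ∈ A k → ∀ (p q : V) (a d : V ⊕ P),
  ∑ b, F.T (Sum.inl p) (Sum.inl q) a b * F.C1 (2 * k) x y b d +
    ∑ i ∈ Finset.range (2 * k - 1), ∑ e, ∑ b, F.c e * F.T (Sum.inl p) (Sum.inl q) e b *
      F.C2 (2 * k) (mv F.o (i + 1) x) (mv F.o (i + 1) y) a b (F.st e) d = 0

/-- OMV: moved places. -/
def T_OMV : Prop := ∀ (K : Type) [Field K] [CharZero K] (I : Type) [Fintype I] [DecidableEq I]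
  (F : OForm K I) (A : ℕ → Submodule ℚ (List I → K)), Calc F.o F.η F.ω A →
  ∀ (k i : ℕ) (x y : List I → K), i < 2 * k →
  (x ∈ A k → mv F.o i x ∈ A k) ∧ (rv y ∈ A k → rv (mv F.o i y) ∈ A k) ∧
  F.Pr (2 * k) (mv F.o i x) (mv F.o i y) = F.Pr (2 * k) x y

/-- OMC: the contractions of two classes in all places but one, or two, are classes. -/
def T_OMC : Prop := ∀ (K : Type) [Field K] [CharZero K] (I : Type) [Fintype I] [DecidableEq I]
  (F : OForm K I) (A : ℕ → Submodule ℚ (List I → K)), Calc F.o F.η F.ω A →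
  ∀ (k : ℕ) (x y : List I → K), 1 ≤ k → x ∈ A k → rv y ∈ A k →
  two (Matrix.of fun a d => F.C1 (2 * k) x y a d) ∈ A 1 ∧ four (F.C2 (2 * k) x y) ∈ A 2

/-- ONN: the pairing in terms of `C1` and `C2`. -/
def T_ONN : Prop := ∀ (K : Type) [Field K] (I : Type) [Fintype I] [DecidableEq I] (F : OForm K I)
  (n : ℕ) (x y : List I → K), 2 ≤ n →
  (∑ a, F.c a * F.C1 n x y a (F.st a) = F.Pr n x y) ∧
  (∑ a, ∑ b, ks K (F.o a) (F.o b) * F.c a * F.c b * F.C2 n x y a b (F.st a) (F.st b) =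
    F.Pr n (sw F.o 0 x) y) ∧
  (∑ a, ∑ d, F.c a * F.c (F.st d) * F.C2 n x y a (F.st a) (F.st d) d =
    F.Pr (n - 2) (con F.η 0 x) (F.con' y))

/-- OHT: the tensor `h`. -/
def T_OHT : Prop := ∀ (K : Type) [Field K] [CharZero K] (I : Type) [Fintype I] [DecidableEq I]
  (F : OForm K I) (A : ℕ → Submodule ℚ (List I → K)), Calc F.o F.η F.ω A →
  ∀ (c1 : I → I → K) (c2 : I → I → I → I → K), two (Matrix.of c1) ∈ A 1 → four c2 ∈ A 2 →
  ∃ t ∈ A 2,
    (∀ x p q, F.o p = false → F.o q = false → F.M4 t x (p, q) - F.M4 t x (q, p) =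
      (if x.1 = p then F.c q * c1 (F.st q) x.2 else 0) -
      (if x.1 = q then F.c p * c1 (F.st p) x.2 else 0) +
      F.c p * F.c q * (c2 x.1 (F.st q) (F.st p) x.2 - c2 x.1 (F.st p) (F.st q) x.2)) ∧
    F.str2 (F.M4 t) = F.sd * ∑ a, F.c a * c1 a (F.st a) +
      ∑ a, ∑ b, ks K (F.o a) (F.o b) * F.c a * F.c b * c2 a b (F.st a) (F.st b) ∧
    F.str2 (F.M4 t * F.Sx) = ∑ a, F.c a * c1 a (F.st a) +
      ∑ a, ∑ d, F.c a * F.c (F.st d) * c2 a (F.st a) (F.st d) d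

/-- OMU: composition of endomorphisms of the tensors of order two. -/
def T_OMU : Prop := ∀ (K : Type) [Field K] [CharZero K] (I : Type) [Fintype I] [DecidableEq I]
  (F : OForm K I) (A : ℕ → Submodule ℚ (List I → K)), Calc F.o F.η F.ω A →
  ∀ t ∈ A 2, ∀ t' ∈ A 2, ∃ t'' ∈ A 2, F.M4 t'' = F.M4 t * F.M4 t'

/-- OUN: the identity and the exchange. -/
def T_OUN : Prop := ∀ (K : Type) [Field K] [CharZero K] (I : Type) [Fintype I] [DecidableEq I]
  (F : OForm K I) (A : ℕ → Submodule ℚ (List I → K)), Calc F.o F.η F.ω A →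
  (∃ t ∈ A 2, F.M4 t = 1) ∧ (∃ t ∈ A 2, F.M4 t = F.Sx) ∧ F.Sx * F.Sx = 1

/-- OPT: partial traces. -/
def T_OPT : Prop := ∀ (K : Type) [Field K] [CharZero K] (I : Type) [Fintype I] [DecidableEq I]
  (F : OForm K I) (A : ℕ → Submodule ℚ (List I → K)), Calc F.o F.η F.ω A →
  ∀ t ∈ A 2, ∃ t' ∈ A 1, ∀ a b, F.pt2 (F.M4 t) a b = t' [a, F.st b] * F.c (F.st b)

/-- OPA: the endomorphisms preserve the parity. -/
def T_OPA : Prop := ∀ (K : Type) [Field K] [CharZero K] (I : Type) [Fintype I] [DecidableEq I]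
  (F : OForm K I) (A : ℕ → Submodule ℚ (List I → K)), Calc F.o F.η F.ω A →
  ∀ t ∈ A 2, ∀ x y, F.M4 t x y ≠ 0 → (F.o x.1 ^^ F.o x.2) = (F.o y.1 ^^ F.o y.2)

/-- OCO: the endomorphisms commute with the orthogonal Lie algebra. -/
def T_OCO : Prop := ∀ (K : Type) [Field K] [CharZero K] (V P : Type) [Fintype V] [DecidableEq V]
  [Fintype P] [DecidableEq P] (F : OForm K (V ⊕ P)) (A : ℕ → Submodule ℚ (List (V ⊕ P) → K)),
  OSys F A → ∀ t ∈ A 2, ∀ p q : V,
  F.M4 t * D2 (F.T (Sum.inl p) (Sum.inl q)) = D2 (F.T (Sum.inl p) (Sum.inl q)) * F.M4 t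

/-- OWT: weights. -/
def T_OWT : Prop := ∀ (K : Type) [Field K] [CharZero K] (V P : Type) [Fintype V] [DecidableEq V]
  [Fintype P] [DecidableEq P] (F : OForm K (V ⊕ P)) (A : ℕ → Submodule ℚ (List (V ⊕ P) → K)),
  OSys F A → ∀ g : Matrix ((V ⊕ P) × (V ⊕ P)) ((V ⊕ P) × (V ⊕ P)) K,
  (∀ p q : V, g * D2 (F.T (Sum.inl p) (Sum.inl q)) = D2 (F.T (Sum.inl p) (Sum.inl q)) * g) →
  (∀ x (p : V) (y : P), g x (Sum.inl p, Sum.inr y) ≠ 0 →
    ∃ y' : P, x = (Sum.inl p, Sum.inr y') ∨ x = (Sum.inr y', Sum.inl p)) ∧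
  (∀ x (y y' : P), g x (Sum.inr y, Sum.inr y') ≠ 0 →
    (∃ z z' : P, x = (Sum.inr z, Sum.inr z')) ∨ ∃ p q : V, x = (Sum.inl p, Sum.inl q)) ∧
  (∀ (p q : V) (y y' : P), g (Sum.inl p, Sum.inr y') (Sum.inl p, Sum.inr y) =
    g (Sum.inl q, Sum.inr y') (Sum.inl q, Sum.inr y))

/-- OBL: the blocks of the powers. -/
def T_OBL : Prop := ∀ (K : Type) [Field K] [CharZero K] (V P : Type) [Fintype V] [DecidableEq V]
  [Fintype P] [DecidableEq P] (F : OForm K (V ⊕ P)) (A : ℕ → Submodule ℚ (List (V ⊕ P) → K)),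
  OSys F A → ∀ g : Matrix ((V ⊕ P) × (V ⊕ P)) ((V ⊕ P) × (V ⊕ P)) K, Nonempty V →
  (∀ x y, g x y ≠ 0 → (F.o x.1 ^^ F.o x.2) = (F.o y.1 ^^ F.o y.2)) →
  g * F.Sx = -g → F.Sx * g = -g → (∀ x (p q : V), g x (Sum.inl p, Sum.inl q) = 0) →
  (∀ x (p : V) (y : P), g x (Sum.inl p, Sum.inr y) ≠ 0 →
    ∃ y' : P, x = (Sum.inl p, Sum.inr y') ∨ x = (Sum.inr y', Sum.inl p)) →
  (∀ x (y y' : P), g x (Sum.inr y, Sum.inr y') ≠ 0 →
    (∃ z z' : P, x = (Sum.inr z, Sum.inr z')) ∨ ∃ p q : V, x = (Sum.inl p, Sum.inl q)) →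
  (∀ (p q : V) (y y' : P), g (Sum.inl p, Sum.inr y') (Sum.inl p, Sum.inr y) =
    g (Sum.inl q, Sum.inr y') (Sum.inl q, Sum.inr y)) →
  ∃ (m : Matrix P P K) (u : Matrix (P × P) (P × P) K),
    (∀ (p : V) (y y' : P), m y' y = g (Sum.inl p, Sum.inr y') (Sum.inl p, Sum.inr y)) ∧
    (∀ z y : P × P, u z y = g (Sum.inr z.1, Sum.inr z.2) (Sum.inr y.1, Sum.inr y.2)) ∧
    (∀ a b, m a b ≠ 0 → F.o (Sum.inr a) = F.o (Sum.inr b)) ∧
    (∀ n : ℕ, (∀ x (p q : V), (g ^ (n + 1)) x (Sum.inl p, Sum.inl q) = 0) ∧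
      (∀ (p : V) (y y' : P), (g ^ (n + 1)) (Sum.inl p, Sum.inr y') (Sum.inl p, Sum.inr y) =
        2 ^ n * (m ^ (n + 1)) y' y) ∧
      (∀ (p : V) (y y' : P), (g ^ (n + 1)) (Sum.inr y', Sum.inl p) (Sum.inr y, Sum.inl p) =
        2 ^ n * (m ^ (n + 1)) y' y) ∧
      (∀ z y : P × P, (g ^ (n + 1)) (Sum.inr z.1, Sum.inr z.2) (Sum.inr y.1, Sum.inr y.2) =
        (u ^ (n + 1)) z y))

/-- OTR: the traces of the powers. -/
def T_OTR : Prop := ∀ (K : Type) [Field K] [CharZero K] (V P : Type) [Fintype V] [DecidableEq V]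
  [Fintype P] [DecidableEq P] (F : OForm K (V ⊕ P)) (A : ℕ → Submodule ℚ (List (V ⊕ P) → K)),
  OSys F A → ∀ (g : Matrix ((V ⊕ P) × (V ⊕ P)) ((V ⊕ P) × (V ⊕ P)) K) (m : Matrix P P K)
  (u : Matrix (P × P) (P × P) K) (s : K),
  (∀ x (p q : V), g x (Sum.inl p, Sum.inl q) = 0) →
  (∀ (p : V) (y y' : P), g (Sum.inl p, Sum.inr y') (Sum.inl p, Sum.inr y) = s * m y' y) →
  (∀ (p : V) (y y' : P), g (Sum.inr y', Sum.inl p) (Sum.inr y, Sum.inl p) = s * m y' y) →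
  (∀ z y : P × P, g (Sum.inr z.1, Sum.inr z.2) (Sum.inr y.1, Sum.inr y.2) = u z y) →
  F.str2 g = 2 * (Fintype.card V : K) * s * ∑ y : P, sg K (F.o (Sum.inr y)) * m y y +
    ∑ z : P × P, sg K (F.o (Sum.inr z.1)) * sg K (F.o (Sum.inr z.2)) * u z z ∧
  ∀ p : V, F.pt2 g (Sum.inl p) (Sum.inl p) = s * ∑ y : P, sg K (F.o (Sum.inr y)) * m y y

/-- OSD: the super dimension. -/
def T_OSD : Prop := ∀ (K : Type) [Field K] [CharZero K] (V P : Type) [Fintype V] [DecidableEq V]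
  [Fintype P] [DecidableEq P] (F : OForm K (V ⊕ P)) (A : ℕ → Submodule ℚ (List (V ⊕ P) → K)),
  OSys F A → (∃ N : ℕ, 2 * Fintype.card P ^ 2 < N ∧ 2 * Fintype.card V - F.sd = N) ∧
  (∃ t : ℕ, 1 ≤ t ∧ t ≤ Fintype.card V + Fintype.card P ∧ F.sd = t)

/-- OKE: the key lemma. -/
def T_OKE : Prop := ∀ (K : Type) [Field K] [CharZero K] (V P : Type) [Fintype V] [DecidableEq V]
  [Fintype P] [DecidableEq P] (F : OForm K (V ⊕ P)) (A : ℕ → Submodule ℚ (List (V ⊕ P) → K)),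
  OSys F A → ∀ t ∈ A 2, F.M4 t * F.Sx = -F.M4 t → F.Sx * F.M4 t = -F.M4 t →
  (∀ x (p q : V), F.M4 t x (Sum.inl p, Sum.inl q) = 0) → F.str2 (F.M4 t) = 0

/-- OER: the relation of the pairings, of exchanges and of contractions. -/
def T_OER : Prop := ∀ (K : Type) [Field K] [CharZero K] (V P : Type) [Fintype V] [DecidableEq V]
  [Fintype P] [DecidableEq P] (F : OForm K (V ⊕ P)) (A : ℕ → Submodule ℚ (List (V ⊕ P) → K)),
  OSys F A → ERel F A

/-! ### The tensor product with a symplectic plane -/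

/-- TC1: the components of exchanged, composed and reversed tensors. -/
def T_TC1 : Prop := ∀ (K : Type) [Field K] (I : Type) [Fintype I] [DecidableEq I] (F : OForm K I),
  (∀ (j : ℕ) (t : List (I × Bool) → K) (σ : List Bool) (w : List I), σ.length = w.length →
    j + 2 ≤ w.length → F.cmp (sw F.tl.o j t) σ w = -sw F.o j (F.cmp t (xs j σ)) w) ∧
  (∀ (k : ℕ) (t t' : List (I × Bool) → K) (σ : List Bool) (w : List I), σ.length = w.length →
    2 * k ≤ w.length → F.cmp (tp (2 * k) t t') σ w =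
      tp (2 * k) (F.cmp t (σ.take (2 * k))) (F.cmp t' (σ.drop (2 * k))) w) ∧
  (∀ (k : ℕ) (t : List (I × Bool) → K) (σ : List Bool) (w : List I), w.length = 2 * k →
    σ.length = 2 * k → Even (odds F.o w) → F.cmp (rv t) σ w = rv (F.cmp t σ.reverse) w)

/-- TC2: the components of contracted tensors. -/
def T_TC2 : Prop := ∀ (K : Type) [Field K] (I : Type) [Fintype I] [DecidableEq I] (F : OForm K I),
  (∀ (j : ℕ) (t : List (I × Bool) → K) (σ : List Bool) (w : List I), σ.length = w.length →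
    j ≤ w.length → F.cmp (con F.tl.η j t) σ w =
      con F.η j (F.cmp t (σ.take j ++ false :: true :: σ.drop j)) w -
      con F.η j (F.cmp t (σ.take j ++ true :: false :: σ.drop j)) w) ∧
  (∀ (t : List (I × Bool) → K) (σ : List Bool) (w : List I), σ.length = w.length →
    F.cmp (con' F.tl t) σ w = F.con' (F.cmp t (true :: false :: σ)) w -
      F.con' (F.cmp t (false :: true :: σ)) w)

/-- TCA: the calculus of the tensors with values in the tensor powers of the plane. -/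
def T_TCA : Prop := ∀ (K : Type) [Field K] [CharZero K] (I : Type) [Fintype I] [DecidableEq I]
  (F : OForm K I) (A : ℕ → Submodule ℚ (List I → K)), Calc F.o F.η F.ω A →
  Calc F.tl.o F.tl.η F.tl.ω (F.TA A)

/-- TEF: the components of the images of the nilpotent operators. -/
def T_TEF : Prop := ∀ (K : Type) [Field K] (I : Type) [Fintype I] [DecidableEq I] (F : OForm K I)
  (t : List (I × Bool) → K) (σ : List Bool) (w : List I), σ.length = w.length →
  (F.cmp (der F.EE t) σ w = ∑ i ∈ Finset.range w.length,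
    if σ.getD i true = false then F.cmp t (σ.set i true) w else 0) ∧
  (F.cmp (der F.FF t) σ w = ∑ i ∈ Finset.range w.length,
    if σ.getD i false = true then F.cmp t (σ.set i false) w else 0)

/-- DEC: derivations and the operations on tensors. -/
def T_DEC : Prop := ∀ (K : Type) [Field K] (I : Type) [Fintype I] [DecidableEq I] (o : I → Bool)
  (η T : Matrix I I K), (∀ a b, T a b ≠ 0 → o a = o b) →
  (∀ (j : ℕ) (t : List I → K) (w : List I), j + 2 ≤ w.length →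
    der T (sw o j t) w = sw o j (der T t) w) ∧
  (Tᵀ * η + η * T = 0 → ∀ (j : ℕ) (t : List I → K) (w : List I), j ≤ w.length →
    der T (con η j t) w = con η j (der T t) w) ∧
  (∀ (n : ℕ) (t t' : List I → K) (w : List I), n ≤ w.length →
    der T (tp n t t') w = tp n (der T t) t' w + tp n t (der T t') w) ∧
  (∀ s : Matrix I I K, T * s + s * Tᵀ = 0 → ∀ w : List I, der T (two s) w = 0)

/-- TIN: the calculus of the invariant tensors. -/
def T_TIN : Prop := ∀ (K : Type) [Field K] [CharZero K] (I : Type) [Fintype I] [DecidableEq I]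
  (F : OForm K I) (A : ℕ → Submodule ℚ (List I → K)), Calc F.o F.η F.ω A →
  Calc F.tl.o F.tl.η F.tl.ω (F.TI A) ∧
  F.EEᵀ * F.tl.η + F.tl.η * F.EE = 0 ∧ F.FFᵀ * F.tl.η + F.tl.η * F.FF = 0

/-- TS1: the pairing in terms of the components. -/
def T_TS1 : Prop := ∀ (K : Type) [Field K] (I : Type) [Fintype I] [DecidableEq I] (F : OForm K I)
  (n : ℕ) (t t' : List (I × Bool) → K),
  (∀ w : List (I × Bool), w.length = n → t w ≠ 0 → Even (odds F.o (w.map Prod.fst))) →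
  Pr F.tl n t t' = ∑ σ : List.Vector Bool n, (-1) ^ (σ.1.count true) *
    F.Pr n (F.cmp t σ.1) (F.cmp t' (σ.1.map not))

/-- CAS: the Casimir operator. -/
def T_CAS : Prop := ∀ (K : Type) [Field K] [CharZero K] (k : ℕ) (X : List Bool → K), 1 ≤ k →
  (∀ σ : List Bool, σ.length = 2 * k → ∑ i ∈ Finset.range (2 * k),
    (if σ.getD i true = false then X (σ.set i true) else 0) = 0) →
  (∀ σ : List Bool, σ.length = 2 * k → ∑ i ∈ Finset.range (2 * k),
    (if σ.getD i false = true then X (σ.set i false) else 0) = 0) →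
  ∀ (s : Bool) (l : List Bool), l.length + 1 = 2 * k →
  ∑ i ∈ Finset.range (2 * k - 1), X (l.getD i s :: l.set i s) = ((k : K) - 2) * X (s :: l)

/-- TS3: the exchange of the first two factors of the plane, in the pairing. -/
def T_TS3 : Prop := ∀ (K : Type) [Field K] [CharZero K] (I : Type) [Fintype I] [DecidableEq I]
  (F : OForm K I) (A : ℕ → Submodule ℚ (List I → K)), Calc F.o F.η F.ω A →
  ∀ (k : ℕ) (t t' : List (I × Bool) → K), 1 ≤ k → t ∈ F.TI A k → Symm F.tl.o (2 * k) t →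
  Symm F.tl.o (2 * k) t' →
  (∀ i, i < 2 * k - 1 → ∑ σ : List.Vector Bool (2 * k), (-1) ^ (σ.1.count true) *
      (F.Pr (2 * k) (sw F.o 0 (mv F.o (i + 1) (F.cmp t σ.1)))
        (mv F.o (i + 1) (F.cmp t' (σ.1.map not))) -
      F.Pr (2 * k - 2) (con F.η 0 (mv F.o (i + 1) (F.cmp t σ.1)))
        (F.con' (mv F.o (i + 1) (F.cmp t' (σ.1.map not))))) =
    ∑ σ : List.Vector Bool (2 * k), (-1) ^ (σ.1.count true) *
      (-F.Pr (2 * k) (F.cmp t (xs 0 σ.1)) (F.cmp t' (σ.1.map not)) -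
      F.Pr (2 * k - 2) (con F.η 0 (F.cmp t σ.1)) (F.con' (F.cmp t' (σ.1.map not))))) ∧
  (2 * k - 1 : K) * ∑ σ : List.Vector Bool (2 * k), (-1) ^ (σ.1.count true) *
      F.Pr (2 * k) (F.cmp t (xs 0 σ.1)) (F.cmp t' (σ.1.map not)) =
    ((k : K) - 2) * Pr F.tl (2 * k) t t'

/-- TS4: the contraction of the first two factors, in the pairing. -/
def T_TS4 : Prop := ∀ (K : Type) [Field K] [CharZero K] (I : Type) [Fintype I] [DecidableEq I]
  (F : OForm K I) (A : ℕ → Submodule ℚ (List I → K)), Calc F.o F.η F.ω A →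
  ∀ (k : ℕ) (t t' : List (I × Bool) → K), 1 ≤ k → t ∈ F.TA A k → Symm F.tl.o (2 * k) t →
  Symm F.tl.o (2 * k) t' →
  2 * ∑ σ : List.Vector Bool (2 * k), (-1) ^ (σ.1.count true) *
      F.Pr (2 * k - 2) (con F.η 0 (F.cmp t σ.1)) (F.con' (F.cmp t' (σ.1.map not))) =
    -Pr F.tl (2 * k - 2) (con F.tl.η 0 t) (con' F.tl t')

/-- the relation of the pairings of symmetric classes and of their contractions -/
def SRel {K : Type} [Field K] [CharZero K] {J : Type} [Fintype J] [DecidableEq J] (G : Form K J)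
    (A : ℕ → Submodule ℚ (List J → K)) : Prop :=
  ∀ (k : ℕ) (x y : List J → K), 1 ≤ k → x ∈ A k → rv y ∈ A k → Symm G.o (2 * k) x →
  Symm G.o (2 * k) y → (G.sd + (2 * k - 2)) * Pr G (2 * k) x y =
    (2 * k - 1) * Pr G (2 * k - 2) (con G.η 0 x) (con' G y)

/-- TST: this relation, for the invariant tensors. -/
def T_TST : Prop := ∀ (K : Type) [Field K] [CharZero K] (I : Type) [Fintype I] [DecidableEq I]
  (F : OForm K I) (A : ℕ → Submodule ℚ (List I → K)), Calc F.o F.η F.ω A → ERel F A →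
  SRel F.tl (F.TI A)

/-- RCG: the iterated contraction of a symmetric class. -/
def T_RCG : Prop := ∀ (K : Type) [Field K] [CharZero K] (J : Type) [Fintype J] [DecidableEq J]
  (G : Form K J) (A : ℕ → Submodule ℚ (List J → K)), Calc G.o G.η G.ω A → SRel G A →
  ∀ (l : ℕ) (x : List J → K), 1 ≤ l → G.sd = 2 - 2 * l → x ∈ A l → Symm G.o (2 * l) x →
  itc G l x = 0

/-- SL2: a vector of weight zero and an invariant vector. -/
def T_SL2 : Prop := ∀ (M : Type) [AddCommGroup M] [Module ℚ M] (e f h : Module.End ℚ M),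
  e * f - f * e = h → h * e - e * h = (2 : ℚ) • e → h * f - f * h = -((2 : ℚ) • f) →
  ∀ S : Submodule ℚ M, (∀ x ∈ S, e x ∈ S) → (∀ x ∈ S, f x ∈ S) →
  ∀ n : ℕ, (∀ y ∈ S, (e ^ (n + 1)) y = 0) → (∀ y ∈ S, (f ^ (n + 1)) y = 0) →
  ∀ x ∈ S, h x = 0 → ∃ u ∈ S, e (x + f (e u)) = 0 ∧ f (x + f (e u)) = 0

/-- TPR: the iterated contraction of a symmetric tensor. -/
def T_TPR : Prop := ∀ (K : Type) [Field K] [CharZero K] (I : Type) [Fintype I] [DecidableEq I]
  (F : OForm K I) (A : ℕ → Submodule ℚ (List I → K)), Calc F.o F.η F.ω A → ERel F A →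
  ∀ (l : ℕ) (t : List (I × Bool) → K), 1 ≤ l → F.sd = (l : K) - 1 → t ∈ F.TA A l →
  Symm F.tl.o (2 * l) t → itc F.tl l t = 0

/-- the component of the symmetrization of the identity -/
def OForm.Zc {K : Type} [Field K] {I : Type} [Fintype I] [DecidableEq I] (F : OForm K I)
    (L : List (List ℕ)) (l : ℕ) : List I → K :=
  F.cmp (fun w => (L.map fun js => sws F.tl.o js (idt F.tl.ω l) w).sum)
    (List.replicate l false ++ List.replicate l true)

/-- TN1: it is a class, and the traces of its powers are rational. -/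
def T_TN1 : Prop := ∀ (K : Type) [Field K] [CharZero K] (I : Type) [Fintype I] [DecidableEq I]
  (F : OForm K I) (A : ℕ → Submodule ℚ (List I → K)), Calc F.o F.η F.ω A →
  ∀ (l : ℕ) (L : List (List ℕ)) (a : I), F.o a = true → [] ∈ L →
  (∀ js ∈ L, ∀ j ∈ js, j + 2 ≤ 2 * l) → F.Zc L l ∈ A l ∧
  ∀ k : ℕ, ∃ q : ℚ, ((op F.η l (F.Zc L l)) ^ (k + 1)).trace = (q : K)

/-- TN2: it is numerically trivial. -/
def T_TN2 : Prop := ∀ (K : Type) [Field K] [CharZero K] (I : Type) [Fintype I] [DecidableEq I]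
  (F : OForm K I) (A : ℕ → Submodule ℚ (List I → K)), Calc F.o F.η F.ω A → ERel F A →
  ∀ (l : ℕ) (L : List (List ℕ)), 1 ≤ l → F.sd = (l : K) - 1 → [] ∈ L →
  (∀ js ∈ L, ∀ j ∈ js, j + 2 ≤ 2 * l) →
  (∀ t : List (I × Bool) → K, Symm F.tl.o (2 * l)
    (fun w => (L.map fun js => sws F.tl.o js t w).sum)) →
  ∀ y ∈ A l, ∑ u : List.Vector I l, sgw K F.o u.1 *
    (op F.η l y * op F.η l (F.Zc L l)) u u = 0

/-- TN3: it is not nilpotent. -/
def T_TN3 : Prop := ∀ (K : Type) [Field K] [CharZero K] (I : Type) [Fintype I] [DecidableEq I]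
  (F : OForm K I) (l : ℕ) (L : List (List ℕ)) (a : I), [] ∈ L →
  (∀ js ∈ L, ∀ j ∈ js, j + 2 ≤ 2 * l) → F.o a = true → ∀ N : ℕ, op F.η l (F.Zc L l) ^ N ≠ 0

/-! ### The phantom -/

/-- OTP: the supertrace of a composition is the pairing. -/
def T_OTP : Prop := ∀ (K : Type) [Field K] (I : Type) [Fintype I] [DecidableEq I] (F : OForm K I)
  (l : ℕ) (y z : List I → K),
  ∑ u : List.Vector I l, sgw K F.o u.1 * (op F.η l y * op F.η l z) u u = F.Pr (2 * l) y (rv z)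

/-- OML: operators on tensors of order `l`. -/
def T_OML : Prop := ∀ (K : Type) [Field K] [CharZero K] (I : Type) [Fintype I] [DecidableEq I]
  (F : OForm K I) (A : ℕ → Submodule ℚ (List I → K)), Calc F.o F.η F.ω A → ∀ l : ℕ,
  (∀ t ∈ A l, ∀ t' ∈ A l, ∃ t'' ∈ A l, op F.η l t'' = op F.η l t * op F.η l t') ∧
  idt F.ω l ∈ A l ∧ op F.η l (idt F.ω l) = 1

/-- OID: an idempotent polynomial in a class with rational traces. -/
def T_OID : Prop := ∀ (K : Type) [Field K] [CharZero K] (I : Type) [Fintype I] [DecidableEq I]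
  (F : OForm K I) (A : ℕ → Submodule ℚ (List I → K)), Calc F.o F.η F.ω A → ∀ (l : ℕ)
  (Z : List I → K), Z ∈ A l → (∀ k : ℕ, ∃ q : ℚ, ((op F.η l Z) ^ (k + 1)).trace = (q : K)) →
  (∀ N : ℕ, op F.η l Z ^ N ≠ 0) →
  (∀ y ∈ A l, ∑ u : List.Vector I l, sgw K F.o u.1 * (op F.η l y * op F.η l Z) u u = 0) →
  ∃ e ∈ A l, op F.η l e * op F.η l e = op F.η l e ∧ op F.η l e ≠ 0 ∧
    ∀ y ∈ A l, ∑ u : List.Vector I l, sgw K F.o u.1 * (op F.η l y * op F.η l e) u u = 0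

/-- ONU: the phantom. -/
def T_ONU : Prop := ∀ (K : Type) [Field K] [CharZero K] (V P : Type) [Fintype V] [DecidableEq V]
  [Fintype P] [DecidableEq P] (F : OForm K (V ⊕ P)) (A : ℕ → Submodule ℚ (List (V ⊕ P) → K)),
  OSys F A → (∃ y : P, F.o (Sum.inr y) = true) → ∃ l : ℕ,
    l ≤ Fintype.card V + Fintype.card P + 1 ∧ ∃ e ∈ A l,
    op F.η l e * op F.η l e = op F.η l e ∧ op F.η l e ≠ 0 ∧
    ∀ y ∈ A l, ∑ u : List.Vector (V ⊕ P) l, sgw K F.o u.1 * (op F.η l y * op F.η l e) u u = 0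

/-! ### Bases -/

/-- HYO: a graded space with a supersymmetric form of even degree has a homogeneous basis which is
hyperbolic, and orthogonal in the middle degree. -/
def T_HYO : Prop := ∀ (K : Type) [Field K] [CharZero K] (N : ℕ) (deg : Fin N → ℕ) (τ : ℕ)
  (η : Matrix (Fin N) (Fin N) K), Even τ → (∀ a b, η a b ≠ 0 → deg a + deg b = 2 * τ) →
  (∀ a b, η a b = ks K (decide (Odd (deg a))) (decide (Odd (deg b))) * η b a) →
  ∀ U : Submodule K (Fin N → K),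
  (∀ u ∈ U, ∀ d : ℕ, (fun a => if deg a = d then u a else 0) ∈ U) →
  (∀ u ∈ U, (∀ v ∈ U, u ⬝ᵥ (η *ᵥ v) = 0) → u = 0) →
  ∃ (n : ℕ) (j : Matrix (Fin N) (Fin n) K) (dg : Fin n → ℕ) (F : OForm K (Fin n)),
    n = Module.finrank K U ∧ (∀ b, (fun a => j a b) ∈ U) ∧ (∀ u ∈ U, ∃ x, u = j *ᵥ x) ∧
    jᵀ * η * j = F.η ∧ (∀ a b, j a b ≠ 0 → deg a = dg b) ∧ (∀ b, F.o b = decide (Odd (dg b))) ∧
    (∀ b, dg b = τ → F.st b = b)

/-- ADO: adapted data exist. -/
def T_ADO : Prop := ∀ (K : Type) [Field K] [CharZero K] (N : ℕ) (deg : Fin N → ℕ) (τ : ℕ)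
  (η ρ : Matrix (Fin N) (Fin N) K), Even τ → (∀ a b, η a b ≠ 0 → deg a + deg b = 2 * τ) →
  (∀ a b, η a b = ks K (decide (Odd (deg a))) (decide (Odd (deg b))) * η b a) → IsUnit η →
  ρ * ρ = ρ → ρᵀ * η = η * ρ → (∀ a b, ρ a b ≠ 0 → deg a = deg b) →
  ∀ U : Submodule K (Fin N → K), (∀ u ∈ U, ∀ a, u a ≠ 0 → deg a = τ) → (∀ u ∈ U, ρ *ᵥ u = u) →
  (∀ u ∈ U, (∀ v ∈ U, u ⬝ᵥ (η *ᵥ v) = 0) → u = 0) →
  ∃ n n' : ℕ, Nonempty (OAdapt deg η ρ U n n')

/-! ### The Weil cohomology -/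

/-- VAO: the vanishing cohomology. -/
def T_VAO : Prop := ∀ (K : Type) [Field K] [CharZero K] (W : Weil K), W.Theory →
  ∀ (V : W.Var 0) (L : W.Hom V V), L ∈ W.Lef V → ∀ (r m : ℕ) (T : W.Var m)
  (S : W.Orthogonal V L r T),
  (∀ x : W.H T, W.ap S.down x = 0 → W.InH T (W.dim T) x) ∧
  (∀ x : W.H T, ∃ (v : W.H T) (y : W.H V), W.Vanishing S.toGenericIntersection v ∧
    x = v + W.ap S.up y) ∧
  (∀ u, W.Vanishing S.toGenericIntersection u →
    (∀ v, W.Vanishing S.toGenericIntersection v → u ⬝ᵥ (S.powers.form *ᵥ v) = 0) → u = 0) ∧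
  (∀ U : Submodule K (W.H T), (∀ u, u ∈ U ↔ W.Vanishing S.toGenericIntersection u) →
    W.rk T ≤ Module.finrank K U + W.rk V)

/-- SCO: all correspondences of degree 0 are combinations of the diagonal and of restrictions. -/
def T_SCO : Prop := ∀ (K : Type) [Field K] [CharZero K] (W : Weil K), W.Theory →
  ∀ (V : W.Var 0) (L : W.Hom V V), L ∈ W.Lef V → ∀ (r m : ℕ) (T : W.Var m)
  (S : W.Orthogonal V L r T), ∀ f ∈ W.cyc T T 0, ∃ q : ℚ, ∃ c ∈ W.cyc V V (-(r : ℤ)),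
    f = W.rat q (W.id T) + W.comp (W.comp S.up c) S.down

/-- EPO: the maximal self-adjoint idempotent. -/
def T_EPO : Prop := ∀ (K : Type) [Field K] [CharZero K] (W : Weil K), W.Theory →
  ∀ (V : W.Var 0) (L : W.Hom V V), L ∈ W.Lef V → ∀ (r m : ℕ) (T : W.Var m)
  (S : W.Orthogonal V L r T), ∃ ε ∈ W.cyc T T 0, ε * ε = ε ∧
    εᵀ * S.powers.form = S.powers.form * ε ∧
    (∀ u, W.Vanishing S.toGenericIntersection u → W.ap ε u = 0) ∧
    ∀ f ∈ W.cyc T T 0, (∀ u, W.Vanishing S.toGenericIntersection u → W.ap f u = 0) →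
      W.str (f * (1 - ε)) = 0

/-- CAO: the calculus of the motive `R`. -/
def T_CAO : Prop := ∀ (K : Type) [Field K] [CharZero K] (W : Weil K) (m : ℕ) (T : W.Var m)
  (P : W.Powers T) (ρ : W.Hom T T), ρ ∈ W.cyc T T 0 →
  ∀ (U : Submodule K (W.H T)) (n n' : ℕ) (D : OAdapt (W.deg T) P.form ρ U n n'),
  Calc D.F.o D.F.η D.F.ω (pull D.j P.toPowerData.classes)

/-- SYO: the system of the motive `R`. -/
def T_SYO : Prop := ∀ (K : Type) [Field K] [CharZero K] (W : Weil K), W.Theory →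
  ∀ (V : W.Var 0) (L : W.Hom V V), L ∈ W.Lef V → ∀ (r m : ℕ) (T : W.Var m)
  (S : W.Orthogonal V L r T), ∀ ε ∈ W.cyc T T 0, ε * ε = ε →
  εᵀ * S.powers.form = S.powers.form * ε →
  (∀ u, W.Vanishing S.toGenericIntersection u → W.ap ε u = 0) →
  (∀ f ∈ W.cyc T T 0, (∀ u, W.Vanishing S.toGenericIntersection u → W.ap f u = 0) →
    W.str (f * (1 - ε)) = 0) →
  ∀ U : Submodule K (W.H T), (∀ u, u ∈ U ↔ W.Vanishing S.toGenericIntersection u) →
  ∀ (n n' : ℕ) (D : OAdapt (W.deg T) S.powers.form (1 - ε) U n n'),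
  OSys D.F (pull D.j S.powers.toPowerData.classes)

/-- PHO: from a phantom of the system to a phantom on a power of `T`. -/
def T_PHO : Prop := ∀ (K : Type) [Field K] [CharZero K] (W : Weil K), W.Theory →
  ∀ (m : ℕ) (T : W.Var m) (P : W.Powers T) (ρ : W.Hom T T), ρ ∈ W.cyc T T 0 → ρ * ρ = ρ →
  ∀ (U : Submodule K (W.H T)) (n n' : ℕ) (D : OAdapt (W.deg T) P.form ρ U n n') (l : ℕ),
  (∃ e ∈ pull D.j P.toPowerData.classes l,
    op D.F.η l e * op D.F.η l e = op D.F.η l e ∧ op D.F.η l e ≠ 0 ∧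
    ∀ y ∈ pull D.j P.toPowerData.classes l, ∑ u : List.Vector (Fin n ⊕ Fin n') l,
      sgw K D.F.o u.1 * (op D.F.η l y * op D.F.η l e) u u = 0) →
  ¬ W.NoPhantom (P.pow l)

/-- CPO: the sign conjecture, if the motive `R` is even. -/
def T_CPO : Prop := ∀ (K : Type) [Field K] [CharZero K] (W : Weil K), W.Theory →
  ∀ (V : W.Var 0) (L : W.Hom V V), L ∈ W.Lef V → ∀ (r m : ℕ) (T : W.Var m)
  (S : W.Orthogonal V L r T), ∀ ε ∈ W.cyc T T 0,
  (∀ u, W.Vanishing S.toGenericIntersection u → W.ap ε u = 0) →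
  (∀ a b, (1 - ε) a b ≠ 0 → Even (W.deg T a)) → W.Cplus T

/-- LOO: the local theorem. -/
def T_LOO : Prop := ∀ (K : Type) [Field K] [CharZero K] (W : Weil K), W.Theory →
  ∀ (V : W.Var 0) (L : W.Hom V V), L ∈ W.Lef V → ∀ (r m : ℕ) (T : W.Var m)
  (S : W.Orthogonal V L r T),
  (∀ n : ℕ, n ≤ W.rk T + 1 → W.NoPhantom (S.powers.pow n)) → W.Cplus T

end Pool.Agent.H64.EV
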