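import Pool.Agent.H64.EV.Targets
import Pool.Agent.H64.NLW.LOC

/-!
# Row LOO: the local theorem in even dimension
-/

set_option autoImplicit false

open Matrix Pool.Agent.H64.CC Pool.Agent.H2.NL

namespace Pool.Agent.H64.EV

open Pool.Agent.H64.NLW (van)

theorem pf_LOO (hVAN : T_VAO) (hADA : T_ADO) (hEPS : T_EPO) (hSYS : T_SYO) (hNUM : T_ONU)
    (hPHA : T_PHO) (hCPL : T_CPO) : T_LOO := by
  intro K _ _ W hW V L hL r m T S hno
  obtain ⟨ε, hε, hεε, hεadj, hεV, hεmax⟩ := hEPS K W hW V L hL r m T S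
  obtain ⟨-, -, h3, -⟩ := hVAN K W hW V L hL r m T S
  have hρ : (1 : W.Hom T T) - ε ∈ W.cyc T T 0 :=
    (W.cyc T T 0).sub_mem (hW.calculus.one_mem T) hε
  have hρρ : ((1 : W.Hom T T) - ε) * (1 - ε) = 1 - ε := by
    rw [mul_sub, mul_one, sub_mul, one_mul, hεε, sub_self, sub_zero]
  have hρadj : ((1 : W.Hom T T) - ε)ᵀ * S.powers.form = S.powers.form * (1 - ε) := by
    rw [Matrix.transpose_sub, Matrix.transpose_one, sub_mul, one_mul, hεadj, mul_sub, mul_one]
  have hρdeg : ∀ a b, ((1 : W.Hom T T) - ε) a b ≠ 0 → W.deg T a = W.deg T b := by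
    intro a b hab
    have h := hW.calculus.cyc_deg T T 0 _ hρ a b hab
    omega
  have hρU : ∀ u ∈ van S.toGenericIntersection, ((1 : W.Hom T T) - ε) *ᵥ u = u := by
    intro u hu
    have h := hεV u hu
    have h' : ε *ᵥ u = 0 := h
    rw [Matrix.sub_mulVec, Matrix.one_mulVec, h', sub_zero]
  obtain ⟨n, n', ⟨D⟩⟩ := hADA K (W.rk T) (W.deg T) (W.dim T) S.powers.form (1 - ε) S.even
    S.powers.form_deg S.powers.form_symm S.powers.form_unit hρρ hρadj hρdeg
    (van S.toGenericIntersection) (fun u hu => hu.1) hρU (fun u hu hv => h3 u hu hv)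
  have hsys := hSYS K W hW V L hL r m T S ε hε hεε hεadj hεV hεmax
    (van S.toGenericIntersection) (fun u => Iff.rfl) n n' D
  by_cases hev : ∃ y : Fin n', D.F.o (Sum.inr y) = true
  · exfalso
    obtain ⟨l, hl, e, he, hee, he0, hnum⟩ := hNUM K (Fin n) (Fin n') D.F _ hsys hev
    rw [Fintype.card_fin, Fintype.card_fin] at hl
    refine hPHA K W hW m T S.powers (1 - ε) hρ hρρ (van S.toGenericIntersection) n n' D l
      ⟨e, he, hee, he0, hnum⟩ (hno l ?_)
    have := D.rank_le
    omega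
  · refine hCPL K W hW V L hL r m T S ε hε hεV fun a b hab => ?_
    rw [← D.ji, Matrix.mul_apply] at hab
    obtain ⟨c, -, hc⟩ := Finset.exists_ne_zero_of_sum_ne_zero hab
    have hj : D.j a c ≠ 0 := left_ne_zero_of_mul hc
    have ho : D.F.o c = false := by
      rcases c with p | y
      · exact hsys.o_V p
      · cases hy : D.F.o (Sum.inr y) with
        | false => rfl
        | true => exact absurd ⟨y, hy⟩ hev
    rw [D.o_eq] at ho
    rw [D.j_deg a c hj]
    exact Nat.not_odd_iff_even.1 (of_decide_eq_false ho)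

end Pool.Agent.H64.EV
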