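import Pool.Agent.H2.NL.Defs

/-!
# Generic complete intersections with big monodromy
-/

set_option autoImplicit false

open Matrix

namespace Pool.Agent.H64.CC.Weil

open Pool.Agent.H2.NL

variable {K : Type} [Field K] [CharZero K] (W : Weil K)

/-- `T` is a generic complete intersection of members of the linear systems of line bundles
`N₁ L, …, Nᵣ L` with large `Nᵢ`, with its powers:

* the classes restricted from `V` are invariant under the monodromy group, and orthogonal to the
  vanishing classes (projection formula);
* the monodromy theorem of Deligne: the monodromy group is open in the symplectic group (if `dim T`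
  is odd) or in the orthogonal group (if `dim T` is even) of the space of vanishing classes. So its
  Lie algebra contains the endomorphisms `x ↦ ⟨v, x⟩ u - (-1) ^ (dim T) ⟨u, x⟩ v` for the vanishing
  classes `u`, `v`, which vanish on the classes restricted from `V`; as every cycle on a power of
  `T` is defined over a finite extension of the field of definition of `T`, these endomorphisms
  annihilate the classes of all cycles on the powers of `T`;
* the rank of `H(T)` is large with respect to the rank of `H(V)`, as the `Nᵢ` are large. -/
structure Deligne {m : ℕ} (V : W.Var 0) (L : W.Hom V V) (r : ℕ) (T : W.Var m) extends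
    W.GenericIntersection V L r T where
  powers : W.Powers T
  up_inv : ∀ g ∈ Gal, W.comp g up = up
  down_inv : ∀ g ∈ Gal, W.comp down g = down
  orth : ∀ u, W.Vanishing toGenericIntersection u → ∀ x : W.H V,
    ∑ a, ∑ b, W.ap up x a * powers.form a b * u b = 0
  monodromy : ∀ u v, W.Vanishing toGenericIntersection u → W.Vanishing toGenericIntersection v →
    ∀ (k : ℕ), ∀ t ∈ powers.toPowerData.classes k, ∀ w, w.length = 2 * k →
    der (Matrix.of fun a b => u a * ∑ c, v c * powers.form c b -
      (-1) ^ W.dim T * (v a * ∑ c, u c * powers.form c b)) t w = 0
  large : 2 * (W.rk V + 1) ^ 2 < W.rk T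

/-- generic complete intersections `T` with big monodromy exist, for all varieties over `F 0` and
all ample line bundles, if the dimension of `T` is positive and has the property `P` -/
def DeligneSections (P : ℕ → Prop) : Prop := ∀ V : W.Var 0, ∀ L ∈ W.Lef V, ∀ r, 1 ≤ r →
  r < W.dim V → P (W.dim V - r) → ∃ (m : ℕ) (T : W.Var m), Nonempty (W.Deligne V L r T)

end Pool.Agent.H64.CC.Weil
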