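import Pool.Agent.H64.NLW.Rows
import Pool.Agent.H10.EV.TPR
import Pool.Agent.H10.EV.TS3
import Pool.Agent.H11.EV.ODI
import Pool.Agent.H12.EV.CAS
import Pool.Agent.H12.EV.OER
import Pool.Agent.H13.EV.OPA
import Pool.Agent.H16.EV.SYO
import Pool.Agent.H19.EV.CPO
import Pool.Agent.H19.EV.TST
import Pool.Agent.H20.EV.PHO
import Pool.Agent.H20.EV.TN1
import Pool.Agent.H21.EV.ADO
import Pool.Agent.H27.EV.ONN
import Pool.Agent.H35.EV.HYO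
import Pool.Agent.H35.EV.OWT
import Pool.Agent.H36.EV.OUN
import Pool.Agent.H37.EV.OCO
import Pool.Agent.H40.EV.ORE
import Pool.Agent.H40.EV.TC1
import Pool.Agent.H40.EV.TC2
import Pool.Agent.H42.EV.OMU
import Pool.Agent.H42.EV.OPT
import Pool.Agent.H44.EV.OHT
import Pool.Agent.H46.EV.OID
import Pool.Agent.H46.EV.SCO
import Pool.Agent.H50.EV.DEC
import Pool.Agent.H50.EV.EPO
import Pool.Agent.H50.EV.OML
import Pool.Agent.H50.EV.TS1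
import Pool.Agent.H52.EV.ONU
import Pool.Agent.H52.EV.SL2
import Pool.Agent.H52.EV.TEF
import Pool.Agent.H52.EV.VAO
import Pool.Agent.H60.EV.TCA
import Pool.Agent.H60.EV.TIN
import Pool.Agent.H63.EV.TN2
import Pool.Agent.H66.EV.OKE
import Pool.Agent.H66.EV.TN3
import Pool.Agent.H67.EV.OMC
import Pool.Agent.H67.EV.OMV
import Pool.Agent.H69.EV.CAO
import Pool.Agent.H7.EV.TS4
import Pool.Agent.H74.EV.OBL
import Pool.Agent.H76.EV.ODE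
import Pool.Agent.H79.EVN.OTR
import Pool.Agent.H94.EV.OPS
import Pool.Agent.H97.EV.OSD
import Pool.Agent.H97.EV.RCG
import Pool.Agent.H99.EV.OTP

/-!
# The rows, composed
-/

set_option autoImplicit false

open Pool.Agent.H2.NL Pool.Agent.H64.EV

namespace Pool.Agent.H64.EV

theorem e_HYO : T_HYO :=
  Pool.Agent.H35.EV.pf_HYO

theorem e_ADO : T_ADO :=
  Pool.Agent.H21.EV.pf_ADO e_HYO

theorem e_CAO : T_CAO :=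
  Pool.Agent.H69.EV.pf_CAO Pool.Agent.H64.NLW.r_TRF

theorem e_CAS : T_CAS :=
  Pool.Agent.H12.EV.pf_CAS

theorem e_VAO : T_VAO :=
  Pool.Agent.H52.EV.pf_VAO

theorem e_SCO : T_SCO :=
  Pool.Agent.H46.EV.pf_SCO e_VAO

theorem e_CPO : T_CPO :=
  Pool.Agent.H19.EV.pf_CPO e_SCO

theorem e_DEC : T_DEC :=
  Pool.Agent.H50.EV.pf_DEC

theorem e_EPO : T_EPO :=
  Pool.Agent.H50.EV.pf_EPO e_SCO Pool.Agent.H64.NLW.r_ADJ Pool.Agent.H64.NLW.r_RTR Pool.Agent.H64.NLW.r_FTT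

theorem e_OBL : T_OBL :=
  Pool.Agent.H74.EV.pf_OBL

theorem e_OCO : T_OCO :=
  Pool.Agent.H37.EV.pf_OCO

theorem e_ODE : T_ODE :=
  Pool.Agent.H76.EV.pf_ODE

theorem e_ODI : T_ODI :=
  Pool.Agent.H11.EV.pf_ODI e_ODE

theorem e_OPS : T_OPS :=
  Pool.Agent.H94.EV.pf_OPS

theorem e_ORE : T_ORE :=
  Pool.Agent.H40.EV.pf_ORE

theorem e_OMV : T_OMV :=
  Pool.Agent.H67.EV.pf_OMV e_OPS e_ORE

theorem e_OMC : T_OMC :=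
  Pool.Agent.H67.EV.pf_OMC

theorem e_ONN : T_ONN :=
  Pool.Agent.H27.EV.ONN.pf_ONN

theorem e_OHT : T_OHT :=
  Pool.Agent.H44.EV.pf_OHT

theorem e_OMU : T_OMU :=
  Pool.Agent.H42.EV.pf_OMU

theorem e_OPT : T_OPT :=
  Pool.Agent.H42.EV.pf_OPT

theorem e_OPA : T_OPA :=
  Pool.Agent.H13.EV.pf_OPA

theorem e_OWT : T_OWT :=
  Pool.Agent.H35.EV.OWT.pf_OWT

theorem e_OTR : T_OTR :=
  Pool.Agent.H79.EVN.pf_OTR

theorem e_OSD : T_OSD :=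
  Pool.Agent.H97.EV.pf_OSD

theorem e_OKE : T_OKE :=
  Pool.Agent.H66.EV.pf_OKE e_OMU e_OPT e_OPA e_OCO e_OWT e_OBL e_OTR Pool.Agent.H64.NLW.r_MLT e_OSD

theorem e_OUN : T_OUN :=
  Pool.Agent.H36.EV.pf_OUN

theorem e_OER : T_OER :=
  Pool.Agent.H12.EV.pf_OER e_ODI e_OMV e_OMC e_ONN e_OHT e_OKE e_OMU e_OUN e_OPA

theorem e_OML : T_OML :=
  Pool.Agent.H50.EV.pf_OML Pool.Agent.H64.NLW.r_IDS Pool.Agent.H64.NLW.r_OPG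

theorem e_OID : T_OID :=
  Pool.Agent.H46.EV.pf_OID e_OML Pool.Agent.H64.NLW.r_FTT

theorem e_TC1 : T_TC1 :=
  Pool.Agent.H40.EV.pf_TC1

theorem e_TC2 : T_TC2 :=
  Pool.Agent.H40.EV.pf_TC2

theorem e_TCA : T_TCA :=
  Pool.Agent.H60.EV.pf_TCA e_TC1 e_TC2

theorem e_TN1 : T_TN1 :=
  Pool.Agent.H20.EV.pf_TN1 e_TCA Pool.Agent.H64.NLW.r_IDS Pool.Agent.H64.NLW.r_EIG

theorem e_TIN : T_TIN :=
  Pool.Agent.H60.EV.pf_TIN e_TCA e_DEC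

theorem e_TEF : T_TEF :=
  Pool.Agent.H52.EV.pf_TEF

theorem e_TS1 : T_TS1 :=
  Pool.Agent.H50.EV.pf_TS1

theorem e_TS3 : T_TS3 :=
  Pool.Agent.H10.EV.pf_TS3 e_OPS e_TC1 e_TEF e_TS1 e_CAS

theorem e_TS4 : T_TS4 :=
  Pool.Agent.H7.EV.pf_TS4 e_TC1 e_TC2 e_TS1 e_TCA

theorem e_TST : T_TST :=
  Pool.Agent.H19.EV.pf_TST e_TC1 e_TCA e_TIN e_TS1 e_TS3 e_TS4

theorem e_RCG : T_RCG :=
  Pool.Agent.H97.EV.pf_RCG Pool.Agent.H64.NLW.r_POS Pool.Agent.H64.NLW.r_CSY Pool.Agent.H64.NLW.r_REV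

theorem e_SL2 : T_SL2 :=
  Pool.Agent.H52.EV.pf_SL2

theorem e_TPR : T_TPR :=
  Pool.Agent.H10.EV.TPR.pf_TPR e_TCA e_TIN e_DEC e_TEF e_TST e_RCG e_SL2

theorem e_OTP : T_OTP :=
  Pool.Agent.H99.EV.pf_OTP

theorem e_TN2 : T_TN2 :=
  Pool.Agent.H63.EV.pf_TN2 e_TPR e_TS1 e_TC1 Pool.Agent.H64.NLW.r_ZTR e_OTP e_TCA Pool.Agent.H64.NLW.r_IDS

theorem e_TN3 : T_TN3 :=
  Pool.Agent.H66.EV.pf_TN3 Pool.Agent.H64.NLW.r_EIG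

theorem e_ONU : T_ONU :=
  Pool.Agent.H52.EV.pf_ONU e_OSD e_TN1 e_TN2 e_TN3 e_OID Pool.Agent.H64.NLW.r_SYM e_OER

theorem e_PHO : T_PHO :=
  Pool.Agent.H20.EV.pf_PHO Pool.Agent.H64.NLW.r_PFB Pool.Agent.H64.NLW.r_OPJ Pool.Agent.H64.NLW.r_IDS Pool.Agent.H64.NLW.r_OPG

theorem e_SYO : T_SYO :=
  Pool.Agent.H16.EV.pf_SYO e_VAO e_SCO e_CAO Pool.Agent.H64.NLW.r_PFA Pool.Agent.H64.NLW.r_PFB

end Pool.Agent.H64.EV
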