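import Pool.Agent.H64.EV.Conv
import Pool.Agent.H64.EV.LOO
import Pool.Agent.H64.EV.Uncond
import Pool.Agent.H64.EV.Rows

/-!
# The theorem on nilpotence, for both parities
-/

set_option autoImplicit false

open Matrix Pool.Agent.H64.CC Pool.Agent.H2.NL

namespace Pool.Agent.H64.EV

open Pool.Agent.H64.NLW

theorem e_LOO : T_LOO := pf_LOO e_VAO e_ADO e_EPO e_SYO e_ONU e_PHO e_CPO

section

variable {K : Type} [Field K] [CharZero K] (W : Weil K) (hW : W.Theory)

include hW in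
/-- a generic complete intersection, modulo numerical equivalence -/
theorem numC_deligne {V : W.Var 0} {L : W.Hom V V} (hL : L ∈ W.Lef V) {r m : ℕ} {T : W.Var m}
    (S : W.Deligne V L r T) : W.NumC T := by
  rcases Nat.even_or_odd (W.dim T) with h | h
  · exact fun j => numC_even e_VAO e_SCO e_ADO e_EPO e_SYO W hW hL (toOrt S h) j
  · exact fun j => numC_generic r_VAN r_SCA r_ADA r_EPS r_SYS W hW hL (toSym S h) j

include hW in
/-- a generic complete intersection -/
theorem local_both {V : W.Var 0} {L : W.Hom V V} (hL : L ∈ W.Lef V) {r m : ℕ} {T : W.Var m}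
    (S : W.Deligne V L r T) :
    List.TFAE [
      W.Cplus T,
      ∀ n : ℕ, W.NumCplus (S.powers.pow n),
      ∀ n : ℕ, W.Nilpotence (S.powers.pow n),
      ∀ n ≤ W.rk T + 1, (Odd (W.dim T) → 2 * n ≤ W.rk T + 2) →
        W.NoPhantom (S.powers.pow n)] := by
  tfae_have 1 → 2 := fun h n =>
    numCplus_of_cplus W (S.powers.pow n) (r_CPW K W hW m T S.powers h n)
  tfae_have 2 → 3 := fun h n => nilpotence_of_numCplus W hW (S.powers.pow n) (h n)
  tfae_have 3 → 4 := fun h n _ _ => (r_NIL K W hW m (S.powers.pow n)).2 (h n)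
  tfae_have 4 → 1 := by
    intro h
    rcases Nat.even_or_odd (W.dim T) with h1 | h1
    · refine e_LOO K W hW V L hL r m T (toOrt S h1) fun n hn => h n hn fun h2 => ?_
      exact absurd h1 (Nat.not_even_iff_odd.2 h2)
    · refine r_LOC K W hW V L hL r m T (toSym S h1) fun n hn => h n (by omega) fun _ => hn
  tfae_finish

include hW in
theorem local_crit {V : W.Var 0} {L : W.Hom V V} (hL : L ∈ W.Lef V) {r m : ℕ} {T : W.Var m}
    (S : W.Deligne V L r T) (t : W.Transposition V) (hr : 1 ≤ r) :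
    List.TFAE [
      W.Cplus T,
      ∀ j < W.dim T, ¬ (Even j ↔ Even (W.dim T)) → W.LeftInverse V L r j,
      ∀ j < W.dim T, ¬ (Even j ↔ Even (W.dim T)) → W.NumInjective V L r j] := by
  have h0 := cplus_crit W hW t hL S.toGenericIntersection hr
  tfae_have 1 ↔ 2 := h0.out 0 2
  tfae_have 1 ↔ 3 := h0.out 0 3
  tfae_finish

theorem odd_sections (h : W.DeligneSections Odd) : W.OddSections := by
  intro V L hL r hr hr2 ho
  obtain ⟨m, T, ⟨S⟩⟩ := h V L hL r hr hr2 ho
  have hd : Odd (W.dim T) := by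
    have h1 := S.dim_eq
    have h2 : W.dim T = W.dim V - r := by omega
    rw [h2]
    exact ho
  exact ⟨m, T, ⟨toSym S hd⟩⟩

include hW in
/-- one degree of one variety over `F 0` -/
theorem bdeg_both (Z : W.Var 0) (i : ℕ) (hi : i < W.dim Z)
    (h : ∃ L ∈ W.Lef Z, ∃ (m : ℕ) (T : W.Var m)
      (S : W.Deligne (W.prod Z Z) (W.box L L) (2 * (W.dim Z - i) - 1) T),
      ∀ n : ℕ, 2 * n ≤ W.rk T + 2 → W.NoPhantom (S.powers.pow n)) : W.BDeg Z i := by
  obtain ⟨L, hL, m, T, S, h⟩ := h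
  have hd : W.dim (W.prod Z Z) = W.dim Z + W.dim Z := hW.products.dim_prod Z Z
  have ho : Odd (W.dim T) := by
    have h1 := S.dim_eq
    exact ⟨i, by omega⟩
  exact bdeg_of_noPhantom r_CPW r_NIL r_LOC W hW Z i hi ⟨L, hL, m, T, toSym S ho, h⟩

include hW in
/-- one variety over `F 0` -/
theorem b_both (hO : W.DeligneSections Odd) (Z : W.Var 0) :
    List.TFAE [
      W.B Z,
      ∀ (m : ℕ) (T : W.Var m), W.IsIntersection (W.prod Z Z) T → W.C T,
      ∀ L ∈ W.Lef (W.prod Z Z), ∀ (r m : ℕ) (T : W.Var m) (S : W.Deligne (W.prod Z Z) L r T)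
        (n : ℕ), 1 ≤ r → W.NumCplus (S.powers.pow n),
      ∀ L ∈ W.Lef (W.prod Z Z), ∀ (r m : ℕ) (T : W.Var m) (S : W.Deligne (W.prod Z Z) L r T)
        (n : ℕ), 1 ≤ r → W.Nilpotence (S.powers.pow n),
      ∀ i < W.dim Z, ∃ L ∈ W.Lef Z, ∃ (m : ℕ) (T : W.Var m)
        (S : W.Deligne (W.prod Z Z) (W.box L L) (2 * (W.dim Z - i) - 1) T),
        ∀ n : ℕ, 2 * n ≤ W.rk T + 2 → W.NoPhantom (S.powers.pow n)] := by
  have hO' := odd_sections W hO
  have h0 := b_tfae2 r_CPW r_NIL r_LOC W hW hO' Z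
  tfae_have 1 ↔ 2 := h0.out 0 1
  tfae_have 2 → 3 := by
    intro h L hL r m T S n hr
    have hC : W.C T := h m T ⟨L, hL, r, hr, ⟨S.toIntersection⟩⟩
    have hP : W.Cplus T := cplus_of_c (toTheory W hW) T hC
    have h1 : ∀ n : ℕ, W.NumCplus (S.powers.pow n) := ((local_both W hW hL S).out 0 1).1 hP
    exact h1 n
  tfae_have 3 → 4 := fun h L hL r m T S n hr =>
    nilpotence_of_numCplus W hW (S.powers.pow n) (h L hL r m T S n hr)
  tfae_have 4 → 5 := by
    intro h i hi
    obtain ⟨L, hL⟩ := hW.lefschetz.nonempty Z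
    have hLL := hW.lefschetz.box_mem Z Z L hL L hL
    have hd : W.dim (W.prod Z Z) = W.dim Z + W.dim Z := hW.products.dim_prod Z Z
    obtain ⟨m, T, ⟨S⟩⟩ := hO (W.prod Z Z) (W.box L L) hLL (2 * (W.dim Z - i) - 1) (by omega)
      (by omega) ⟨i, by omega⟩
    exact ⟨L, hL, m, T, S, fun n _ =>
      (r_NIL K W hW m (S.powers.pow n)).2 (h _ hLL _ m T S n (by omega))⟩
  tfae_have 5 → 1 := by
    intro h
    refine (b_iff W hW Z).1 (b_of_bdeg (toTheory W hW) Z fun i hi => ?_)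
    exact (bdeg_iff W hW Z i).2 (bdeg_both W hW Z i hi (h i hi))
  tfae_finish

include hW in
/-- all generic complete intersections in one variety over `F 0` -/
theorem sections_both (hO : W.DeligneSections fun _ => True) (V : W.Var 0)
    (t : W.Transposition V) {L : W.Hom V V} (hL : L ∈ W.Lef V) :
    List.TFAE [
      ∀ (r m : ℕ) (T : W.Var m), 1 ≤ r → Nonempty (W.GenericIntersection V L r T) → W.C T,
      ∀ (r m : ℕ) (T : W.Var m) (S : W.Deligne V L r T) (n : ℕ), 1 ≤ r →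
        W.Nilpotence (S.powers.pow n),
      ∀ r, 1 ≤ r → r < W.dim V → ∃ (m : ℕ) (T : W.Var m) (S : W.Deligne V L r T),
        ∀ n ≤ W.rk T + 1, (Odd (W.dim T) → 2 * n ≤ W.rk T + 2) →
          W.NoPhantom (S.powers.pow n),
      ∀ j, j + 1 < W.dim V → W.LeftInverse V L (W.dim V - 1 - j) j,
      ∀ j, j + 1 < W.dim V → W.NumInjective V L (W.dim V - 1 - j) j] := by
  have hE : ∀ r, 1 ≤ r → r < W.dim V →
      ∃ (m : ℕ) (T : W.Var m), Nonempty (W.GenericIntersection V L r T) := by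
    intro r hr hr2
    obtain ⟨m, T, ⟨S⟩⟩ := hO V L hL r hr hr2 trivial
    exact ⟨m, T, ⟨S.toGenericIntersection⟩⟩
  have h0 := all_crit W hW t hL hE
  tfae_have 1 → 2 := by
    intro h r m T S n hr
    have hC : W.C T := h r m T hr ⟨S.toGenericIntersection⟩
    have hP : W.Cplus T := cplus_of_c (toTheory W hW) T hC
    have h1 : ∀ n : ℕ, W.Nilpotence (S.powers.pow n) := ((local_both W hW hL S).out 0 2).1 hP
    exact h1 n
  tfae_have 2 → 3 := by
    intro h r hr hr2
    obtain ⟨m, T, ⟨S⟩⟩ := hO V L hL r hr hr2 trivial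
    exact ⟨m, T, S, fun n _ _ => (r_NIL K W hW m (S.powers.pow n)).2 (h r m T S n hr)⟩
  tfae_have 3 → 1 := by
    intro h
    refine (h0.out 0 1).1 ?_
    intro r m T hr ⟨S⟩
    have hdT := S.dim_eq
    refine ((cplus_crit W hW t hL S hr).out 2 0).1 ?_
    intro j hj hjp
    obtain ⟨m', T', S', h'⟩ := h r hr (by omega)
    have h1 : W.Cplus T' := ((local_both W hW hL S').out 3 0).1 h'
    have hdT' := S'.dim_eq
    have hd : W.dim T' = W.dim T := by omega
    have h2 : ∀ j < W.dim T', ¬ (Even j ↔ Even (W.dim T')) → W.LeftInverse V L r j :=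
      ((local_crit W hW hL S' t hr).out 0 1).1 h1
    rw [hd] at h2
    exact h2 j hj hjp
  tfae_have 1 ↔ 4 := h0.out 1 2
  tfae_have 4 ↔ 5 := h0.out 2 3
  tfae_finish

end

end Pool.Agent.H64.EV
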