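import Pool.Agent.H2.NL.Defs

/-!
# Complete intersections of even dimension
-/

set_option autoImplicit false

open Matrix

namespace Pool.Agent.H64.CC.Weil

open Pool.Agent.H2.NL

variable {K : Type} [Field K] [CharZero K] (W : Weil K)

/-- `T` is a generic complete intersection of even dimension, of members of the linear systems of
line bundles `N₁ L, …, Nᵣ L` with large `Nᵢ`, with its powers:

* the classes restricted from `V` are invariant under the monodromy group, and orthogonal to the
  vanishing classes (projection formula);
* the monodromy theorem of Deligne: the monodromy group is infinite, and open in the orthogonal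
  group of the space of vanishing classes. So its Lie algebra contains the endomorphisms
  `x ↦ ⟨v, x⟩ u - ⟨u, x⟩ v` for the vanishing classes `u`, `v`, which vanish on the classes
  restricted from `V`; as every cycle on a power of `T` is defined over a finite extension of the
  field of definition of `T`, these endomorphisms annihilate the classes of all cycles on the powers
  of `T`;
* the rank of `H(T)` is large with respect to the rank of `H(V)`, as the `Nᵢ` are large. -/
structure Orthogonal {m : ℕ} (V : W.Var 0) (L : W.Hom V V) (r : ℕ) (T : W.Var m) extends
    W.GenericIntersection V L r T where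
  powers : W.Powers T
  even : Even (W.dim T)
  up_inv : ∀ g ∈ Gal, W.comp g up = up
  down_inv : ∀ g ∈ Gal, W.comp down g = down
  orth : ∀ u, W.Vanishing toGenericIntersection u → ∀ x : W.H V,
    ∑ a, ∑ b, W.ap up x a * powers.form a b * u b = 0
  monodromy : ∀ u v, W.Vanishing toGenericIntersection u → W.Vanishing toGenericIntersection v →
    ∀ (k : ℕ), ∀ t ∈ powers.toPowerData.classes k, ∀ w, w.length = 2 * k →
    der (Matrix.of fun a b => u a * ∑ c, v c * powers.form c b - v a * ∑ c, u c * powers.form c b)
      t w = 0
  large : 2 * (W.rk V + 1) ^ 2 < W.rk T

/-- generic complete intersections of even dimension, with these properties, exist for all varieties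
over `F 0` and all ample line bundles -/
def EvenSections : Prop := ∀ V : W.Var 0, ∀ L ∈ W.Lef V, ∀ r, 1 ≤ r → r < W.dim V →
  Even (W.dim V - r) → ∃ (m : ℕ) (T : W.Var m), Nonempty (W.Orthogonal V L r T)

end Pool.Agent.H64.CC.Weil
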