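import Pool.Agent.H64.EV.Deligne
import Pool.Agent.H64.EV.Orth
import Pool.Agent.H64.NLW.Local

/-!
# Big monodromy: the two parities
-/

set_option autoImplicit false

open Matrix Pool.Agent.H64.CC Pool.Agent.H2.NL

namespace Pool.Agent.H64.EV

open Pool.Agent.H64.NLW

theorem der_smulT {K : Type} [Field K] {I : Type} [Fintype I] (s : K) (T : Matrix I I K)
    (w : List I) : ∀ t : List I → K, der (s • T) t w = s * der T t w := by
  induction w with
  | nil => intro t; exact (mul_zero _).symm
  | cons a w ih =>
    intro t
    show ∑ b, (s • T) a b * t (b :: w) + der (s • T) (fun l' => t (a :: l')) w = _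
    rw [ih]
    simp only [der, mul_add, Finset.mul_sum, Matrix.smul_apply, smul_eq_mul]
    congr 1
    exact Finset.sum_congr rfl fun b _ => by ring

section

variable {K : Type} [Field K] [CharZero K] {W : Weil K}

/-- odd dimension -/
def toSym {V : W.Var 0} {L : W.Hom V V} {r m : ℕ} {T : W.Var m} (S : W.Deligne V L r T)
    (h : Odd (W.dim T)) : W.Symplectic V L r T where
  toGenericIntersection := S.toGenericIntersection
  powers := S.powers
  odd := h
  up_inv := S.up_inv
  down_inv := S.down_inv
  orth := S.orth
  monodromy := by
    intro u hu k t ht w hw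
    have h1 := S.monodromy u u hu hu k t ht w hw
    have h2 : (Matrix.of fun a b => u a * ∑ c, u c * S.powers.form c b -
        (-1) ^ W.dim T * (u a * ∑ c, u c * S.powers.form c b) : Matrix _ _ K) =
        (2 : K) • Matrix.of fun a b => u a * ∑ c, u c * S.powers.form c b := by
      ext a b
      rw [Matrix.smul_apply, Matrix.of_apply, Matrix.of_apply, h.neg_one_pow, smul_eq_mul]
      ring
    rw [h2, der_smulT] at h1
    exact (mul_eq_zero.1 h1).resolve_left two_ne_zero
  large := by
    have h1 := S.large
    have h2 : 2 * W.rk V * (W.rk V + 1) ≤ 2 * (W.rk V + 1) ^ 2 := by nlinarith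
    exact lt_of_le_of_lt h2 h1

/-- even dimension -/
def toOrt {V : W.Var 0} {L : W.Hom V V} {r m : ℕ} {T : W.Var m} (S : W.Deligne V L r T)
    (h : Even (W.dim T)) : W.Orthogonal V L r T where
  toGenericIntersection := S.toGenericIntersection
  powers := S.powers
  even := h
  up_inv := S.up_inv
  down_inv := S.down_inv
  orth := S.orth
  monodromy := by
    intro u v hu hv k t ht w hw
    have h1 := S.monodromy u v hu hv k t ht w hw
    simp only [h.neg_one_pow, one_mul] at h1
    exact h1
  large := S.large

end

end Pool.Agent.H64.EV
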