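import Pool.Agent.H2.NL.Basic
import Pool.Agent.H64.EV.Orth

/-!
# Supersymmetric forms, the tensor product with a symplectic plane
-/

set_option autoImplicit false
set_option linter.unusedSectionVars false

open Matrix

namespace Pool.Agent.H64.EV

open Pool.Agent.H2.NL

/-- supersymmetric forms: the product of the basis elements `a` and `st a` is `c a`, and the other
products of basis elements vanish. For even `a` one may have `st a = a` -/
structure OForm (K : Type) [Field K] (I : Type) where
  o : I → Bool
  st : I → I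
  c : I → K
  st_st : ∀ a, st (st a) = a
  o_st : ∀ a, o (st a) = o a
  c_ne : ∀ a, c a ≠ 0
  c_st : ∀ a, c (st a) = sg K (o a) * c a

section form

variable {K : Type} [Field K] {I : Type} [Fintype I] [DecidableEq I] (F : OForm K I)

/-- the matrix of the form -/
def OForm.η : Matrix I I K := Matrix.of fun a b => if b = F.st a then F.c a else 0

/-- the class of the diagonal, the inverse matrix -/
def OForm.ω : Matrix I I K := Matrix.of fun a b => if b = F.st a then (F.c b)⁻¹ else 0

/-- the super dimension -/
def OForm.sd : K := ∑ a, sg K (F.o a)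

/-- the element `x ↦ ⟨e_q, x⟩ e_p - ⟨e_p, x⟩ e_q` of the orthogonal Lie algebra -/
def OForm.T (p q : I) : Matrix I I K :=
  Matrix.of fun a b => (if a = p then F.η q b else 0) - (if a = q then F.η p b else 0)

/-- the number of the pairs of the tensors `f`, `g` of order `n`, in parallel form -/
def OForm.Pr : ℕ → (List I → K) → (List I → K) → K
  | 0, f, g => f [] * g []
  | n + 1, f, g => ∑ a, F.c a * OForm.Pr n (fun l => f (a :: l)) (fun l => g (F.st a :: l))

/-- contraction of the first two places, in the opposite order -/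
def OForm.con' (t : List I → K) (w : List I) : K := ∑ a, F.c a * t (F.st a :: a :: w)

/-- the contraction of `x` and `y` in all places but the first -/
def OForm.C1 (n : ℕ) (x y : List I → K) (a d : I) : K :=
  F.Pr (n - 1) (fun l => x (a :: l)) (fun l => y (d :: l))

/-- the contraction of `x` and `y` in all places but the first two -/
def OForm.C2 (n : ℕ) (x y : List I → K) (a b e d : I) : K :=
  F.Pr (n - 2) (fun l => x (a :: b :: l)) (fun l => y (d :: e :: l))

/-- the endomorphism of the tensors of order two which is given by a tensor of order four -/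
def OForm.M4 (t : List I → K) : Matrix (I × I) (I × I) K :=
  Matrix.of fun x y => t [x.1, x.2, F.st y.2, F.st y.1] * (F.c (F.st y.1) * F.c (F.st y.2))

/-- the Koszul exchange -/
def OForm.Sx : Matrix (I × I) (I × I) K :=
  Matrix.of fun x y => if x.1 = y.2 ∧ x.2 = y.1 then ks K (F.o x.1) (F.o x.2) else 0

/-- the supertrace -/
def OForm.str2 (g : Matrix (I × I) (I × I) K) : K := ∑ x, sg K (F.o x.1) * sg K (F.o x.2) * g x x

/-- the partial supertrace over the second factor -/
def OForm.pt2 (g : Matrix (I × I) (I × I) K) : Matrix I I K :=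
  Matrix.of fun a b => ∑ y, sg K (F.o y) * g (a, y) (b, y)

/-- the place `i` of a tensor is moved to the place `1` (the places are numbered from `0`) -/
def mv (o : I → Bool) (i : ℕ) (t : List I → K) : List I → K := sws o (List.range' 1 (i - 1)) t

/-- the relation of the pairings of two classes, of exchanges and of contractions -/
def ERel [CharZero K] (F : OForm K I) (A : ℕ → Submodule ℚ (List I → K)) : Prop :=
  ∀ (k : ℕ) (x y : List I → K), 1 ≤ k → x ∈ A k → rv y ∈ A k →
  (F.sd - 1) * F.Pr (2 * k) x y + ∑ i ∈ Finset.range (2 * k - 1),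
    (F.Pr (2 * k) (sw F.o 0 (mv F.o (i + 1) x)) (mv F.o (i + 1) y) -
      F.Pr (2 * k - 2) (con F.η 0 (mv F.o (i + 1) x)) (F.con' (mv F.o (i + 1) y))) = 0

/-! ### The tensor product with a symplectic plane, with the opposite parity -/

/-- the form -/
def OForm.tl : Form K (I × Bool) where
  o a := !F.o a.1
  st a := (F.st a.1, !a.2)
  c a := if F.o a.1 = false ∧ a.2 = true then -1 else 1
  st_st a := by rw [F.st_st, Bool.not_not]
  st_ne a := by
    intro h
    have h1 := congrArg Prod.snd h
    simp at h1
  o_st a := by rw [F.o_st]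
  c_val a := by
    by_cases h : F.o a.1 = false ∧ a.2 = true
    · exact Or.inr (if_pos h)
    · exact Or.inl (if_neg h)
  c_st a := by
    rcases a with ⟨a, s⟩
    rw [F.o_st]
    unfold sg
    cases h : F.o a <;> cases s <;> simp
  c_even a h := by
    have h1 : F.o a.1 = true := by simpa using h
    rw [if_neg]
    rintro ⟨h2, -⟩
    rw [h1] at h2
    exact absurd h2 (by decide)

/-- the factor of the letter `a` at the place `i` -/
def OForm.lam (i : ℕ) (a : I × Bool) : K :=
  sg K (F.o a.1) ^ i * (if a.2 = true then 1 else F.c (F.st a.1))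

/-- the factor of a word which starts at the place `i` -/
def OForm.lw : ℕ → List (I × Bool) → K
  | _, [] => 1
  | i, a :: w => F.lam i a * OForm.lw (i + 1) w

/-- the component `σ` of a tensor -/
def OForm.cmp (t : List (I × Bool) → K) (σ : List Bool) (w : List I) : K :=
  (F.lw 0 (w.zip σ))⁻¹ * t (w.zip σ)

theorem OForm.cmp_add (t t' : List (I × Bool) → K) (σ : List Bool) :
    F.cmp (t + t') σ = F.cmp t σ + F.cmp t' σ := by
  funext w
  exact mul_add _ _ _

theorem OForm.cmp_smul [CharZero K] (q : ℚ) (t : List (I × Bool) → K) (σ : List Bool) :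
    F.cmp (q • t) σ = q • F.cmp t σ := by
  funext w
  show (F.lw 0 (w.zip σ))⁻¹ * (q • t (w.zip σ)) = q • ((F.lw 0 (w.zip σ))⁻¹ * t (w.zip σ))
  rw [Rat.smul_def, Rat.smul_def]
  ring

/-- the tensors all of whose components are classes -/
def OForm.TA [CharZero K] (A : ℕ → Submodule ℚ (List I → K)) (k : ℕ) :
    Submodule ℚ (List (I × Bool) → K) where
  carrier := {t | ∀ σ : List Bool, σ.length = 2 * k → F.cmp t σ ∈ A k}
  add_mem' := by
    intro t t' h h' σ hσ
    rw [F.cmp_add]
    exact (A k).add_mem (h σ hσ) (h' σ hσ)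
  zero_mem' := by
    intro σ _
    have h : F.cmp 0 σ = 0 := by
      funext w
      exact mul_zero _
    rw [h]
    exact (A k).zero_mem
  smul_mem' := by
    intro q t h σ hσ
    rw [F.cmp_smul]
    exact (A k).smul_mem q (h σ hσ)

/-- the nilpotent operators of the Lie algebra of the plane -/
def OForm.EE : Matrix (I × Bool) (I × Bool) K := Matrix.of fun x y =>
  if x.1 = y.1 ∧ x.2 = false ∧ y.2 = true then F.c (F.st x.1) else 0

/-- the nilpotent operators of the Lie algebra of the plane -/
def OForm.FF : Matrix (I × Bool) (I × Bool) K := Matrix.of fun x y =>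
  if x.1 = y.1 ∧ x.2 = true ∧ y.2 = false then (F.c (F.st x.1))⁻¹ else 0

end form

theorem der_add {K : Type} [Field K] {I : Type} [Fintype I] (T : Matrix I I K)
    (w : List I) : ∀ t t' : List I → K, der T (t + t') w = der T t w + der T t' w := by
  induction w with
  | nil => intro t t'; exact (add_zero _).symm
  | cons a w ih =>
    intro t t'
    show ∑ b, T a b * (t (b :: w) + t' (b :: w)) +
      der T ((fun l' => t (a :: l')) + fun l' => t' (a :: l')) w = _
    rw [ih]
    simp only [mul_add, Finset.sum_add_distrib, der]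
    ring

theorem der_smul {K : Type} [Field K] {I : Type} [Fintype I] (T : Matrix I I K) (s : K)
    (w : List I) : ∀ t : List I → K, der T (s • t) w = s * der T t w := by
  induction w with
  | nil => intro t; exact (mul_zero _).symm
  | cons a w ih =>
    intro t
    show ∑ b, T a b * (s * t (b :: w)) + der T (s • fun l' => t (a :: l')) w = _
    rw [ih]
    simp only [der, mul_add, Finset.mul_sum]
    congr 1
    exact Finset.sum_congr rfl fun b _ => by ring

section form

variable {K : Type} [Field K] [CharZero K] {I : Type} [Fintype I] [DecidableEq I] (F : OForm K I)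

/-- the invariant tensors all of whose components are classes -/
def OForm.TI (A : ℕ → Submodule ℚ (List I → K)) (k : ℕ) :
    Submodule ℚ (List (I × Bool) → K) where
  carrier := {t | t ∈ F.TA A k ∧
    ∀ w, w.length = 2 * k → der F.EE t w = 0 ∧ der F.FF t w = 0}
  add_mem' := by
    rintro t t' ⟨h1, h2⟩ ⟨h1', h2'⟩
    refine ⟨(F.TA A k).add_mem h1 h1', fun w hw => ?_⟩
    rw [der_add, der_add, (h2 w hw).1, (h2 w hw).2, (h2' w hw).1, (h2' w hw).2, add_zero]
    exact ⟨rfl, rfl⟩
  zero_mem' := by
    refine ⟨(F.TA A k).zero_mem, fun w _ => ?_⟩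
    have h : ∀ T : Matrix (I × Bool) (I × Bool) K, der T 0 w = 0 := by
      intro T
      have h1 := der_smul T 0 w 0
      rw [zero_smul, zero_mul] at h1
      exact h1
    exact ⟨h _, h _⟩
  smul_mem' := by
    rintro q t ⟨h1, h2⟩
    refine ⟨(F.TA A k).smul_mem q h1, fun w hw => ?_⟩
    have h3 : (q • t : List (I × Bool) → K) = (q : K) • t := by
      funext v
      exact Rat.smul_def q (t v)
    rw [h3, der_smul, der_smul, (h2 w hw).1, (h2 w hw).2, mul_zero]
    exact ⟨rfl, rfl⟩

end form

/-- the list with the places `j` and `j + 1` exchanged -/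
def xs : ℕ → List Bool → List Bool
  | 0, a :: b :: l => b :: a :: l
  | j + 1, a :: l => a :: xs j l
  | _, l => l

/-- The system of the classes of cycles on the powers of the motive `R`: `H(R)` is the orthogonal sum
of the vanishing cohomology, with the orthogonal basis `V`, and a small space, with the basis `P` -/
structure OSys {K : Type} [Field K] [CharZero K] {V P : Type} [Fintype V] [DecidableEq V] [Fintype P]
    [DecidableEq P] (F : OForm K (V ⊕ P)) (A : ℕ → Submodule ℚ (List (V ⊕ P) → K)) : Prop where
  calculus : Calc F.o F.η F.ω A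
  st_V : ∀ p : V, F.st (Sum.inl p) = Sum.inl p
  o_V : ∀ p : V, F.o (Sum.inl p) = false
  mono : ∀ (p q : V) (k : ℕ), ∀ t ∈ A k, ∀ w, w.length = 2 * k →
    der (F.T (Sum.inl p) (Sum.inl q)) t w = 0
  endo : ∀ t ∈ A 1, ∃ q : ℚ, (∀ p : V, t [Sum.inl p, Sum.inl p] * F.c (Sum.inl p) = (q : K)) ∧
    con F.η 0 t [] = (q : K) * F.sd
  large : 2 * Fintype.card P ^ 2 + Fintype.card P < Fintype.card V

/-- the data which describe the motive `R` in a homogeneous basis: `j` and `i` are the matrices of
the inclusion `H(R) → H(T)` and of the projection -/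
structure OAdapt {K : Type} [Field K] [CharZero K] {N : ℕ} (deg : Fin N → ℕ)
    (η ρ : Matrix (Fin N) (Fin N) K) (U : Submodule K (Fin N → K)) (n n' : ℕ) where
  j : Matrix (Fin N) (Fin n ⊕ Fin n') K
  i : Matrix (Fin n ⊕ Fin n') (Fin N) K
  dg : Fin n ⊕ Fin n' → ℕ
  F : OForm K (Fin n ⊕ Fin n')
  rank_U : n = Module.finrank K U
  rank_le : n + n' ≤ N
  ij : i * j = 1
  ji : j * i = ρ
  adj : ρᵀ * η = η * ρ
  form : jᵀ * η * j = F.η
  form_i : jᵀ * η = F.η * i
  om : j * F.ω * jᵀ * η = ρ
  j_deg : ∀ a b, j a b ≠ 0 → deg a = dg b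
  i_deg : ∀ b a, i b a ≠ 0 → dg b = deg a
  o_eq : ∀ b, F.o b = decide (Odd (dg b))
  st_V : ∀ p, F.st (Sum.inl p) = Sum.inl p
  mem_U : ∀ p, (fun a => j a (Sum.inl p)) ∈ U

/-! ### Basic lemmas -/

section basic

variable {K : Type} [Field K] {I : Type} [Fintype I] [DecidableEq I] (F : OForm K I)

theorem OForm.st_inj : Function.Injective F.st := fun a b h => by
  rw [← F.st_st a, h, F.st_st]

theorem OForm.st_eq_iff (a b : I) : F.st a = b ↔ a = F.st b := by
  constructor
  · intro h; rw [← h, F.st_st]
  · intro h; rw [h, F.st_st]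

theorem OForm.sum_st (f : I → K) : ∑ a, f (F.st a) = ∑ a, f a :=
  Function.Bijective.sum_comp ⟨F.st_inj, fun b => ⟨F.st b, F.st_st b⟩⟩ f

theorem OForm.sg_c_st (a : I) : sg K (F.o a) * F.c (F.st a) = F.c a := by
  rw [F.c_st, ← mul_assoc, sg_mul_self, one_mul]

/-- the contraction with the form -/
theorem OForm.con_append (α : List I) (t : List I → K) (β : List I) :
    con F.η α.length t (α ++ β) = ∑ a, F.c a * t (α ++ a :: F.st a :: β) := by
  rw [Pool.Agent.H2.NL.con_append]
  refine Finset.sum_congr rfl fun a _ => ?_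
  rw [Finset.sum_eq_single (F.st a)]
  · rw [OForm.η, Matrix.of_apply, if_pos rfl]
  · intro b _ hb
    rw [OForm.η, Matrix.of_apply, if_neg hb, zero_mul]
  · intro h
    exact absurd (Finset.mem_univ _) h

theorem OForm.η_mul_ω : F.η * F.ω = 1 := by
  ext a b
  rw [Matrix.mul_apply, Finset.sum_eq_single (F.st a)]
  · rw [OForm.η, OForm.ω, Matrix.of_apply, Matrix.of_apply, if_pos rfl, F.st_st, Matrix.one_apply]
    by_cases h : b = a
    · rw [if_pos h, if_pos h.symm, h, mul_inv_cancel₀ (F.c_ne a)]
    · rw [if_neg h, if_neg (Ne.symm h), mul_zero]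
  · intro c _ hc
    rw [OForm.η, Matrix.of_apply, if_neg hc, zero_mul]
  · intro h
    exact absurd (Finset.mem_univ _) h

theorem OForm.ω_mul_η : F.ω * F.η = 1 := mul_eq_one_comm.1 F.η_mul_ω

theorem OForm.lam_ne (i : ℕ) (a : I × Bool) : F.lam i a ≠ 0 := by
  unfold OForm.lam
  refine mul_ne_zero (pow_ne_zero _ ?_) ?_
  · unfold sg
    split_ifs
    · exact neg_ne_zero.2 one_ne_zero
    · exact one_ne_zero
  · split_ifs
    · exact one_ne_zero
    · exact F.c_ne _

theorem OForm.lw_ne (w : List (I × Bool)) : ∀ i : ℕ, F.lw i w ≠ 0 := by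
  induction w with
  | nil => exact fun _ => one_ne_zero
  | cons a w ih => exact fun i => mul_ne_zero (F.lam_ne i a) (ih (i + 1))

end basic

end Pool.Agent.H64.EV
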